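import Pool.Agent.MDG.StmtsZ

/-!
# Squad MDG (MP_3faef8_co), row BRN (helper99): there are at most `card V` bridges
-/

set_option autoImplicit false

open Finset Matrix Pool.Agent.HEC

namespace Pool.Agent.MDG.H99

/-- A property with exactly one solution. -/
theorem cnt_one {α : Type} [Fintype α] {P : α → Prop} (h : cnt P = 1) {p q : α} (hp : P p)
    (hq : P q) : p = q := by
  classical
  unfold cnt at h
  rw [Finset.card_eq_one] at h
  obtain ⟨r, hr⟩ := h
  have h1 : p ∈ ({r} : Finset α) := by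
    rw [← hr, Finset.mem_filter]
    exact ⟨Finset.mem_univ _, hp⟩
  have h2 : q ∈ ({r} : Finset α) := by
    rw [← hr, Finset.mem_filter]
    exact ⟨Finset.mem_univ _, hq⟩
  rw [Finset.mem_singleton] at h1 h2
  rw [h1, h2]

/-- A cut of size one contains only one ordered pair. -/
theorem cut_one {V : Type} [Fintype V] {H : SimpleGraph V} {W : Finset V} (h : cut H W = 1)
    {p q : V × V} (hp : p.1 ∈ W ∧ p.2 ∉ W ∧ H.Adj p.1 p.2)
    (hq : q.1 ∈ W ∧ q.2 ∉ W ∧ H.Adj q.1 q.2) : p = q :=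
  cnt_one (P := fun p : V × V => p.1 ∈ W ∧ p.2 ∉ W ∧ H.Adj p.1 p.2) h hp hq

/-- `Bri` is symmetric. -/
theorem bri_symm {V : Type} [Fintype V] {H : SimpleGraph V} {u v : V} (h : Bri H u v) :
    Bri H v u := by
  obtain ⟨h1, W, h2, h3⟩ := h
  refine ⟨h1.symm, W, h2, ?_⟩
  rcases h3 with ⟨a, b⟩ | ⟨a, b⟩
  · exact Or.inr ⟨b, a⟩
  · exact Or.inl ⟨b, a⟩

/-- Row BRN. -/
theorem brn : BrnStmt := by
  classical
  intro V _ H t ht
  have hex : ∀ q : {q : V × V // Bri H q.1 q.2 ∧ t q.1 = true}, ∃ W : Finset V, cut H W = 1 ∧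
      ((q.1.1 ∈ W ∧ q.1.2 ∉ W) ∨ (q.1.1 ∉ W ∧ q.1.2 ∈ W)) := fun q => q.2.1.2
  choose W hW1 hW2 using hex
  have htf : ∀ q : {q : V × V // Bri H q.1 q.2 ∧ t q.1 = true}, t q.1.2 = false := by
    intro q
    have h1 := ht q.1.1 q.1.2 q.2.1.1
    have h2 := q.2.2
    rw [h2] at h1
    cases hh : t q.1.2
    · rfl
    · exact absurd hh.symm h1
  set x : {q : V × V // Bri H q.1 q.2 ∧ t q.1 = true} → V → ℝ :=
    fun q => Pi.single q.1.1 1 - Pi.single q.1.2 1 with hxdef
  have hx : ∀ q q' : {q : V × V // Bri H q.1 q.2 ∧ t q.1 = true},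
      ∑ a ∈ W q, x q' a =
        (if q'.1.1 ∈ W q then (1 : ℝ) else 0) - (if q'.1.2 ∈ W q then (1 : ℝ) else 0) := by
    intro q q'
    simp only [hxdef, Pi.sub_apply, Finset.sum_sub_distrib, Pi.single_apply, Finset.sum_ite_eq']
  have h0 : ∀ q q' : {q : V × V // Bri H q.1 q.2 ∧ t q.1 = true}, q' ≠ q →
      ∑ a ∈ W q, x q' a = 0 := by
    intro q q' hne
    rw [hx]
    have hadj := q.2.1.1
    have hadj' := q'.2.1.1
    have t1 := q.2.2
    have t1' := q'.2.2
    have t2 := htf q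
    have t2' := htf q'
    by_cases ha : q'.1.1 ∈ W q
    · by_cases hb : q'.1.2 ∈ W q
      · simp [ha, hb]
      · exfalso
        rcases hW2 q with ⟨c, d⟩ | ⟨c, d⟩
        · have e := cut_one (hW1 q) (p := (q.1.1, q.1.2)) (q := (q'.1.1, q'.1.2))
            ⟨c, d, hadj⟩ ⟨ha, hb, hadj'⟩
          exact hne (Subtype.ext e.symm)
        · have e := cut_one (hW1 q) (p := (q.1.2, q.1.1)) (q := (q'.1.1, q'.1.2))
            ⟨d, c, hadj.symm⟩ ⟨ha, hb, hadj'⟩
          have e1 : q.1.2 = q'.1.1 := congrArg Prod.fst e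
          rw [e1, t1'] at t2
          exact absurd t2 (by decide)
    · by_cases hb : q'.1.2 ∈ W q
      · exfalso
        rcases hW2 q with ⟨c, d⟩ | ⟨c, d⟩
        · have e := cut_one (hW1 q) (p := (q.1.1, q.1.2)) (q := (q'.1.2, q'.1.1))
            ⟨c, d, hadj⟩ ⟨hb, ha, hadj'.symm⟩
          have e1 : q.1.1 = q'.1.2 := congrArg Prod.fst e
          rw [← e1, t1] at t2'
          exact absurd t2' (by decide)
        · have e := cut_one (hW1 q) (p := (q.1.2, q.1.1)) (q := (q'.1.2, q'.1.1))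
            ⟨d, c, hadj.symm⟩ ⟨hb, ha, hadj'.symm⟩
          have e1 : q.1.2 = q'.1.2 := congrArg Prod.fst e
          have e2 : q.1.1 = q'.1.1 := congrArg Prod.snd e
          exact hne (Subtype.ext (Prod.ext e2.symm e1.symm))
      · simp [ha, hb]
  have h1 : ∀ q : {q : V × V // Bri H q.1 q.2 ∧ t q.1 = true}, ∑ a ∈ W q, x q a ≠ 0 := by
    intro q
    rw [hx]
    rcases hW2 q with ⟨c, d⟩ | ⟨c, d⟩
    · simp [c, d]
    · simp [c, d]
  have hli : LinearIndependent ℝ x := by
    rw [Fintype.linearIndependent_iff]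
    intro g hg q
    have e : ∑ a ∈ W q, (∑ q', g q' • x q') a = 0 := by
      rw [hg]
      simp
    simp only [Finset.sum_apply, Pi.smul_apply, smul_eq_mul] at e
    rw [Finset.sum_comm] at e
    have e2 : ∑ q', g q' * ∑ a ∈ W q, x q' a = 0 := by
      rw [← e]
      exact Finset.sum_congr rfl fun q' _ => Finset.mul_sum _ _ _
    rw [Finset.sum_eq_single q (fun q' _ hne => by rw [h0 q q' hne, mul_zero])
      (fun h => absurd (Finset.mem_univ q) h)] at e2
    exact (mul_eq_zero.mp e2).resolve_right (h1 q)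
  have hc : Fintype.card {q : V × V // Bri H q.1 q.2 ∧ t q.1 = true} ≤ Fintype.card V := by
    have h := hli.fintype_card_le_finrank
    rwa [Module.finrank_fintype_fun_eq_card] at h
  have hA : (univ.filter fun q : V × V => Bri H q.1 q.2 ∧ t q.1 = true).card ≤
      Fintype.card V := by
    have e : Fintype.card {q : V × V // Bri H q.1 q.2 ∧ t q.1 = true} =
        (univ.filter fun q : V × V => Bri H q.1 q.2 ∧ t q.1 = true).card :=
      Fintype.card_of_subtype _ (fun q => by
        rw [Finset.mem_filter]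
        exact ⟨fun h => h.2, fun h => ⟨Finset.mem_univ _, h⟩⟩)
    rw [← e]
    exact hc
  have hB : (univ.filter fun q : V × V => Bri H q.1 q.2 ∧ t q.1 = false).card ≤
      (univ.filter fun q : V × V => Bri H q.1 q.2 ∧ t q.1 = true).card := by
    refine Finset.card_le_card_of_injOn Prod.swap ?_ (Prod.swap_injective.injOn)
    intro q hq
    have hq' := (Finset.mem_filter.mp hq).2
    refine Finset.mem_coe.mpr (Finset.mem_filter.mpr ⟨Finset.mem_univ _, bri_symm hq'.1, ?_⟩)
    have h2 := ht q.1 q.2 hq'.1.1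
    rw [hq'.2] at h2
    show t q.2 = true
    cases hh : t q.2
    · exact absurd hh.symm h2
    · rfl
  have hS : cnt (fun q : V × V => Bri H q.1 q.2) ≤
      (univ.filter fun q : V × V => Bri H q.1 q.2 ∧ t q.1 = true).card +
      (univ.filter fun q : V × V => Bri H q.1 q.2 ∧ t q.1 = false).card := by
    unfold cnt
    refine le_trans (Finset.card_le_card ?_) (Finset.card_union_le _ _)
    intro q hq
    have hq' := (Finset.mem_filter.mp hq).2
    rw [Finset.mem_union]
    cases hh : t q.1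
    · exact Or.inr (Finset.mem_filter.mpr ⟨Finset.mem_univ _, hq', hh⟩)
    · exact Or.inl (Finset.mem_filter.mpr ⟨Finset.mem_univ _, hq', hh⟩)
  omega

end Pool.Agent.MDG.H99
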